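import Mathlib

namespace Pool.Agent.Results.MP_6ad575_co.Counter

open AddMonoidAlgebra

variable {S : Type} [AddCommMonoid S]

def cyc (x : S) : Set S := {y | ∃ m : ℕ, 1 ≤ m ∧ y = m • x}

def IsGrp (A : Set S) : Prop := ∃ e ∈ A, ∀ x ∈ A, e + x = x ∧ ∃ y ∈ A, x + y = e

def Le (a b : S) : Prop := a = b ∨ ∃ c, a = b + c

theorem le_iff {a b : S} : Le a b ↔ ∃ c, a = b + c :=
  ⟨fun h => h.elim (fun e => ⟨0, by simp [e]⟩) id, .inr⟩

def H (S : Type) [AddCommMonoid S] : AddCon S where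
  r a b := Le a b ∧ Le b a
  iseqv := ⟨fun _ => ⟨.inl rfl, .inl rfl⟩, And.symm, by
    simp only [le_iff]
    rintro a b c ⟨⟨x, h1⟩, y, h2⟩ ⟨⟨z, h3⟩, w, h4⟩
    exact ⟨⟨z + x, by rw [h1, h3, add_assoc]⟩, y + w, by rw [h4, h2, add_assoc]⟩⟩
  add' := by
    simp only [le_iff]
    rintro a b c d ⟨⟨x, h1⟩, y, h2⟩ ⟨⟨z, h3⟩, w, h4⟩
    exact ⟨⟨x + z, by rw [add_add_add_comm, ← h1, ← h3]⟩, y + w, by rw [add_add_add_comm, ← h2, ← h4]⟩

def Irred {T : Type} [AddCommMonoid T] (M : Multiset T) : Prop := ∀ N < M, N.sum ≠ M.sum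

def E : Type := Finset ℕ × Fin 3

instance : Add E := ⟨fun a b => (a.1 ∪ b.1, ⟨min (a.2 + b.2) 2, by omega⟩)⟩

instance : Zero E := ⟨(∅, 0)⟩

instance : AddCommMonoid E where
  add_assoc a b c := Prod.ext (Finset.union_assoc _ _ _) (Fin.ext (by
    change min (min _ _ + _) _ = min (_ + min _ _) _
    omega))
  zero_add a := Prod.ext (Finset.empty_union _) (Fin.ext (by
    change min (0 + _) _ = _
    omega))
  add_zero a := Prod.ext (Finset.union_empty _) (Fin.ext (by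
    change min (_ + 0) _ = _
    omega))
  add_comm a b := Prod.ext (Finset.union_comm _ _) (Fin.ext (by
    change min (_ + _) _ = min (_ + _) _
    omega))
  nsmul := nsmulRec

theorem f1 (a b : E) : (a + b).1 = a.1 ∪ b.1 := rfl

theorem f2 (a b : E) : (a + b).2.1 = min (a.2.1 + b.2.1) 2 := rfl

theorem sm (x : E) (m : ℕ) : ((m + 1) • x).1 = x.1 ∧ ((m + 1) • x).2.1 = min ((m + 1) * x.2.1) 2 := by
  induction m with
  | zero => simp; omega
  | succ m ih =>
    rw [succ_nsmul, f1, f2, ih.1, ih.2, add_mul (m + 1)]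
    exact ⟨Finset.union_self _, by omega⟩

theorem cy {x y : E} (h : y ∈ cyc x) : y.1 = x.1 ∧ x.2.1 ≤ y.2.1 ∧ (x.2.1 = 0 → y.2.1 = 0) := by
  obtain ⟨m, h, rfl⟩ := h
  obtain ⟨m, rfl⟩ := Nat.exists_eq_add_of_le' h
  rw [(sm x m).1, (sm x m).2, add_mul]
  exact ⟨rfl, by omega, fun h => by simp [h]⟩

theorem triv {a b : E} (h : H E a b) : a.1 = b.1 := by
  obtain ⟨⟨c, h1⟩, d, h2⟩ := h.imp le_iff.1 le_iff.1
  exact (h2 ▸ Finset.subset_union_left : a.1 ⊆ b.1).antisymm (h1 ▸ Finset.subset_union_left)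

def g (i : ℕ) : E := ({i}, if i = 0 then 1 else 0)

theorem s1 (M : Multiset ℕ) : (M.map g).sum.1 = M.toFinset := by
  induction M using Multiset.induction with
  | empty => rfl
  | cons i M ih =>
    rw [Multiset.map_cons, Multiset.sum_cons, f1, ih, Multiset.toFinset_cons]
    exact (Finset.insert_eq _ _).symm

theorem s2 (n : ℕ) : ((Multiset.range (n + 1)).map g).sum.2.1 = 1 := by
  induction n with
  | zero => rfl
  | succ n ih => rw [Multiset.range_succ, Multiset.map_cons, Multiset.sum_cons, f2, ih]; rfl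

theorem result : ∃ (S : Type) (_ : AddCommMonoid S), (∀ x : S, (cyc x).Finite) ∧
    (∀ (R : Type) [CommRing R] [Nontrivial R] (e : S → S), (∀ x, e x ∈ cyc x ∧ e x + e x = e x) →
      ∀ l ≥ 2, ∀ s : Fin l → S, ∃ a : Fin l → R, (∀ i, a i ≠ 0) ∧
        ∏ i, (single (s i) 1 - single (e (s i)) (a i) : AddMonoidAlgebra R S) = 0) ∧
    ∀ n, ∃ a : S, ¬ IsGrp (cyc a) ∧ ∃ M : Multiset (H S).Quotient,
      Irred M ∧ M.sum = (a : (H S).Quotient) ∧ n ≤ M.card := by
  refine ⟨E, inferInstance, fun x => ?_, fun R _ _ e he l hl s => ⟨1, fun _ => one_ne_zero, ?_⟩,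
    fun n => ?_⟩
  · exact (Set.finite_range fun i : Fin 3 => ((x.1, i) : E)).subset
      fun y h => ⟨y.2, Prod.ext (cy h).1.symm rfl⟩
  · obtain ⟨l, rfl⟩ := Nat.exists_eq_add_of_le' hl
    rw [Fin.prod_univ_succ, Fin.prod_univ_succ, ← mul_assoc]
    refine mul_eq_zero_of_left ?_ _
    have k (x : E) : e x = x ∨ (e x).1 = x.1 ∧ (e x).2.1 = 2 ∧ x.2.1 = 1 := by
      obtain ⟨h1, h2, h3⟩ := cy (he x).1
      have h4 := congrArg (·.2.1) (he x).2
      simp only [f2] at h4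
      by_cases h : x.2.1 = 1
      · exact .inr ⟨h1, by omega, h⟩
      · exact .inl (Prod.ext h1 (Fin.ext (by omega)))
    generalize s 0 = x
    generalize s (Fin.succ 0) = y
    rcases k x with h | ⟨x1, x2, x3⟩
    · simp [h]
    rcases k y with h | ⟨y1, y2, y3⟩
    · simp [h]
    have a1 : x + e y = x + y := Prod.ext (by rw [f1, f1, y1]) (Fin.ext (by rw [f2, f2]; omega))
    have a2 : e x + e y = e x + y := Prod.ext (by rw [f1, f1, y1]) (Fin.ext (by rw [f2, f2]; omega))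
    simp [mul_sub, sub_mul, single_mul_single, a1, a2]
  have q (M : Multiset ℕ) : (M.map fun i => (g i : (H E).Quotient)).sum = ((M.map g).sum : E) := by
    rw [← AddCon.coe_mk', map_multiset_sum, Multiset.map_map]
    rfl
  refine ⟨((Multiset.range (n + 1)).map g).sum, ?_,
    (Multiset.range (n + 1)).map fun i => g i, fun N hN e => ?_, q _, by simp⟩
  · rintro ⟨u, hu, h⟩
    have h1 := congrArg (·.2.1) (h _ ⟨1, le_rfl, (one_nsmul _).symm⟩).1
    have h2 := (cy hu).2.1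
    simp only [f2, s2] at h1 h2
    omega
  · have h0 := Multiset.mem_powersetCard.2 ⟨hN.le, rfl⟩
    rw [Multiset.powersetCard_map] at h0
    obtain ⟨N, h1, rfl⟩ := Multiset.mem_map.1 h0
    replace h1 := (Multiset.mem_powersetCard.1 h1).1
    rw [q, q] at e
    have := triv ((H E).eq.1 e)
    rw [s1, s1] at this
    exact hN.ne (by rw [(Multiset.Nodup.ext (Multiset.nodup_of_le h1 (Multiset.nodup_range _))
      (Multiset.nodup_range (n + 1))).2 fun a => by
        rw [← Multiset.mem_toFinset, this, Multiset.mem_toFinset]])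

end Pool.Agent.Results.MP_6ad575_co.Counter
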